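import Pool.Agent.X298.GG.Defs
import Pool.Agent.X298.II.BMain
import Pool.Agent.X298.ST.Ab

/-!
# The global Gan–Gross–Prasad conjecture: all twists by the characters of a finite group from one sum
-/

set_option autoImplicit false

open Filter Topology Asymptotics
open IsDedekindDomain NumberField

namespace Pool.Agent.X298.GG

open Pool.Agent.X298.ST Pool.Agent.X298.II Pool.Agent.X287.CR

variable {E : Type} [Field E] [NumberField E] {S : Set (HeightOneSpectrum (𝓞 E))} {N₁ N₂ : ℕ}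
  {G : Type} [CommGroup G] [Finite G]

theorem tw_le (π : Satake S N₁ N₂) (φ : Places S → G) (χ : G →* ℂ) (x : Places S × ℕ) :
    ‖π.tw φ χ x‖ ≤ (N₁ : ℝ) * N₂ := by
  unfold Satake.tw
  rw [norm_mul, norm_mul, norm_pow, norm_ch, one_pow, mul_one]
  refine mul_le_mul ?_ ?_ (norm_nonneg _) (by positivity)
  · refine (norm_sum_le _ _).trans ?_
    simp [norm_pow, π.norm_a]
  · refine (norm_sum_le _ _).trans ?_
    simp [norm_pow, π.norm_b]

theorem oneTerm_eq (π : Satake S N₁ N₂) (φ : Places S → G) (γ T : ℝ) (x : Places S × ℕ) :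
    (Nat.card G : ℂ) * oneTerm π φ γ T x = ∑ᶠ χ : G →* ℂ, bTerm (π.tw φ χ) (1 / 2) γ T x := by
  classical
  have := Fintype.ofFinite (G →* ℂ)
  rw [finsum_eq_sum_of_fintype]
  set y : ℂ := (∑ i, π.a x.1 i ^ (x.2 + 1)) * (∑ j, π.b x.1 j ^ (x.2 + 1)) * ((nrm x.1 : ℂ) ^ (-(1 / 2 : ℂ))) ^ (x.2 + 1) *
        Complex.exp ((γ * ((x.2 + 1) * Real.log (nrm x.1) / T) : ℝ) * Complex.I) /
      (((x.2 + 1) * Real.Gamma (1 + (x.2 + 1) * Real.log (nrm x.1) / T) : ℝ) : ℂ) with hy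
  have h1 : ∀ χ : G →* ℂ, bTerm (π.tw φ χ) (1 / 2) γ T x = χ (φ x.1 ^ (x.2 + 1)) * y := by
    intro χ
    unfold bTerm Satake.tw
    rw [map_pow, hy]
    ring
  have h2 := orth_ch (φ x.1 ^ (x.2 + 1))
  rw [finsum_eq_sum_of_fintype] at h2
  rw [Finset.sum_congr rfl fun χ _ => h1 χ, ← Finset.sum_mul, h2]
  unfold oneTerm
  by_cases h : φ x.1 ^ (x.2 + 1) = 1
  · rw [Set.indicator_of_mem (by simpa using h), if_pos h]
  · rw [Set.indicator_of_notMem (by simpa using h), if_neg h, mul_zero, zero_mul]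

theorem oneTerm_summable (π : Satake S N₁ N₂) (φ : Places S → G) (γ : ℝ) {T : ℝ} (hT : 0 < T) :
    Summable fun x => ‖oneTerm π φ γ T x‖ := by
  refine Summable.of_nonneg_of_le (fun x => norm_nonneg _) (fun x => ?_) (b_summable (tw_le π φ 1) (1 / 2) γ hT)
  have h1 : bTerm (π.tw φ 1) (1 / 2) γ T x =
      (∑ i, π.a x.1 i ^ (x.2 + 1)) * (∑ j, π.b x.1 j ^ (x.2 + 1)) * ((nrm x.1 : ℂ) ^ (-(1 / 2 : ℂ))) ^ (x.2 + 1) *
        Complex.exp ((γ * ((x.2 + 1) * Real.log (nrm x.1) / T) : ℝ) * Complex.I) /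
      (((x.2 + 1) * Real.Gamma (1 + (x.2 + 1) * Real.log (nrm x.1) / T) : ℝ) : ℂ) := by
    unfold bTerm Satake.tw
    simp
  unfold oneTerm
  by_cases h : x ∈ {x : Places S × ℕ | φ x.1 ^ (x.2 + 1) = 1}
  · rw [Set.indicator_of_mem h, ← h1]
  · rw [Set.indicator_of_notMem h, norm_zero]
    exact norm_nonneg _

theorem oneSum_eq (π : Satake S N₁ N₂) (φ : Places S → G) (γ : ℝ) {T : ℝ} (hT : 0 < T) :
    (Nat.card G : ℂ) * oneSum π φ γ T = ∑ᶠ χ : G →* ℂ, bSum (π.tw φ χ) (1 / 2) γ T := by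
  classical
  have := Fintype.ofFinite (G →* ℂ)
  rw [finsum_eq_sum_of_fintype]
  unfold oneSum bSum
  rw [← tsum_mul_left, ← Summable.tsum_finsetSum fun χ _ => (b_summable (tw_le π φ χ) (1 / 2) γ hT).of_norm]
  refine tsum_congr fun x => ?_
  rw [oneTerm_eq, finsum_eq_sum_of_fintype]

theorem main (π : Satake S N₁ N₂) (φ : Places S → G) (Λ : (G →* ℂ) → ℂ → ℂ)
    (hc : ∀ χ, IsCont (π.tw φ χ) (1 / 2) (Λ χ)) (ha : ∀ χ, AnalyticAt ℂ (Λ χ) (1 / 2)) {γ : ℝ}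
    (hγ : Real.pi / 2 < γ) :
    (fun T : ℝ => Complex.exp (Nat.card G * oneSum π φ γ T) - ∏ᶠ χ : G →* ℂ, Λ χ (1 / 2)) =O[atTop]
      (fun T : ℝ => 1 / T) ∧
    ((∀ χ, Λ χ (1 / 2) ≠ 0) ↔ ∃ C : ℝ, ∀ᶠ T : ℝ in atTop, C ≤ (oneSum π φ γ T).re) ∧
    ((∀ χ, Λ χ (1 / 2) ≠ 0) ↔ ∃ C : ℝ, ∃ᶠ T : ℝ in atTop, C ≤ (oneSum π φ γ T).re) := by
  classical
  have := Fintype.ofFinite (G →* ℂ)
  choose m r h1 h2 using fun χ => b_hol (tw_le π φ χ) (hc χ) (ha χ) hγ
  have hasy : (fun T : ℝ => (Nat.card G : ℂ) * oneSum π φ γ T - ((∑ χ, r χ) -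
      ((∑ χ, m χ : ℕ) : ℂ) * (Real.log T - Lambda γ))) =O[atTop] (fun T : ℝ => 1 / T) := by
    have h3 : (fun T : ℝ => ∑ χ : G →* ℂ, (bSum (π.tw φ χ) (1 / 2) γ T - (r χ - m χ * (Real.log T - Lambda γ)))) =O[atTop]
        (fun T : ℝ => 1 / T) := IsBigO.fun_sum fun χ _ => h2 χ
    refine h3.congr' ?_ EventuallyEq.rfl
    filter_upwards [eventually_gt_atTop (0 : ℝ)] with T hT
    rw [oneSum_eq π φ γ hT, finsum_eq_sum_of_fintype, Finset.sum_sub_distrib, Finset.sum_sub_distrib, ← Finset.sum_mul]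
    push_cast
    ring
  have hM : (∑ χ, m χ = 0) ↔ ∀ χ, m χ = 0 := by simp
  have hval : ∏ᶠ χ : G →* ℂ, Λ χ (1 / 2) = if ∑ χ, m χ = 0 then Complex.exp (∑ χ, r χ) else 0 := by
    rw [finprod_eq_prod_of_fintype, Finset.prod_congr rfl fun χ _ => h1 χ]
    split_ifs with h0
    · rw [Complex.exp_sum]
      exact Finset.prod_congr rfl fun χ _ => by rw [if_pos (hM.1 h0 χ)]
    · rw [hM] at h0
      push Not at h0
      obtain ⟨χ, hχ⟩ := h0
      exact Finset.prod_eq_zero (Finset.mem_univ χ) (by rw [if_neg hχ])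
  have hz : (∀ χ, Λ χ (1 / 2) ≠ 0) ↔ ∑ χ, m χ = 0 := by
    rw [hM]
    refine forall_congr' fun χ => ?_
    rw [h1 χ]
    split_ifs with h0
    · simp [h0, Complex.exp_ne_zero]
    · simp [h0]
  obtain ⟨hn, hb⟩ := re_tend hasy
  have hcard : (0 : ℝ) < Nat.card G := by exact_mod_cast Nat.card_pos
  have hre : ∀ T : ℝ, ((Nat.card G : ℂ) * oneSum π φ γ T).re = Nat.card G * (oneSum π φ γ T).re := by
    intro T
    rw [← Complex.ofReal_natCast, Complex.re_ofReal_mul]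
  have hnot : ∀ C : ℝ, ∑ χ, m χ ≠ 0 → ¬ ∃ᶠ T : ℝ in atTop, C ≤ (oneSum π φ γ T).re := by
    intro C h0 hf
    obtain ⟨T, hT1, hT2⟩ := (hf.and_eventually ((hn h0).eventually (eventually_lt_atBot (Nat.card G * C)))).exists
    rw [hre] at hT2
    nlinarith
  refine ⟨?_, ?_, ?_⟩
  · have h7 := Pool.Agent.X298.FP.exp_bound hasy
    rw [← hval] at h7
    exact h7
  · rw [hz]
    constructor
    · intro h0
      obtain ⟨C, hC⟩ := hb h0
      refine ⟨C / Nat.card G, hC.mono fun T hT => ?_⟩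
      rw [hre] at hT
      rw [div_le_iff₀ hcard]
      linarith
    · rintro ⟨C, hC⟩
      by_contra h0
      exact hnot C h0 hC.frequently
  · rw [hz]
    constructor
    · intro h0
      obtain ⟨C, hC⟩ := hb h0
      refine ⟨C / Nat.card G, (hC.mono fun T hT => ?_).frequently⟩
      rw [hre] at hT
      rw [div_le_iff₀ hcard]
      linarith
    · rintro ⟨C, hC⟩
      by_contra h0
      exact hnot C h0 hC

end Pool.Agent.X298.GG
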