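import Mathlib
import Pool.Agent.X298.II.BDefs

/-!
# The global Gan–Gross–Prasad conjecture: Satake parameters, twists and the sum of the trivial class, definitions
-/

set_option autoImplicit false

open Filter Topology
open IsDedekindDomain NumberField

namespace Pool.Agent.X298.GG

open Pool.Agent.X298.ST Pool.Agent.X298.II

variable {E : Type} [Field E] [NumberField E]

/-- The Satake parameters, of absolute value `1`, of tempered representations `π_V`, `π_W` at the places of `E` outside of `S`, in the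
standard representations of the dual groups (of the dimensions `N₁`, `N₂`). -/
structure Satake (S : Set (HeightOneSpectrum (𝓞 E))) (N₁ N₂ : ℕ) where
  a : Places S → Fin N₁ → ℂ
  b : Places S → Fin N₂ → ℂ
  norm_a : ∀ w i, ‖a w i‖ = 1
  norm_b : ∀ w i, ‖b w i‖ = 1

variable {S : Set (HeightOneSpectrum (𝓞 E))} {N₁ N₂ : ℕ} {G : Type} [CommGroup G]

/-- `(∑_i a_{w,i}^k) (∑_j b_{w,j}^k) χ(φ(w))^k` for `w = x.1`, `k = x.2 + 1`: the traces of the powers for
`π_V ⊠ π_W ⊗ χ`. -/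
noncomputable def Satake.tw (π : Satake S N₁ N₂) (φ : Places S → G) (χ : G →* ℂ) (x : Places S × ℕ) : ℂ :=
  (∑ i, π.a x.1 i ^ (x.2 + 1)) * (∑ j, π.b x.1 j ^ (x.2 + 1)) * χ (φ x.1) ^ (x.2 + 1)

/-- The term of `w = x.1`, `k = x.2 + 1`: `(∑_i a_{w,i}^k) (∑_j b_{w,j}^k) q_w^{-k/2} e^{iγu} / (k Γ(1 + u))`,
`u = k log q_w / T`, if `φ(w)^k = 1`, and `0` otherwise. -/
noncomputable def oneTerm (π : Satake S N₁ N₂) (φ : Places S → G) (γ T : ℝ) (x : Places S × ℕ) : ℂ :=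
  Set.indicator {x : Places S × ℕ | φ x.1 ^ (x.2 + 1) = 1} (fun x =>
    (∑ i, π.a x.1 i ^ (x.2 + 1)) * (∑ j, π.b x.1 j ^ (x.2 + 1)) * ((nrm x.1 : ℂ) ^ (-(1 / 2 : ℂ))) ^ (x.2 + 1) *
        Complex.exp ((γ * ((x.2 + 1) * Real.log (nrm x.1) / T) : ℝ) * Complex.I) /
      (((x.2 + 1) * Real.Gamma (1 + (x.2 + 1) * Real.log (nrm x.1) / T) : ℝ) : ℂ)) x

/-- `S_1(T)`, the sum of the terms -/
noncomputable def oneSum (π : Satake S N₁ N₂) (φ : Places S → G) (γ T : ℝ) : ℂ := ∑' x, oneTerm π φ γ T x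

end Pool.Agent.X298.GG
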